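import Mathlib

/-!
Covering dimension at most one implies that nonvanishing functions are dense in `C(X, ℂ)`.
-/

namespace Pool.Agent.Y284.OM

open Set Filter Topology ComplexConjugate

/-- Lebesgue covering dimension at most `n`: every finite open cover has a finite open refinement
(a cover) such that every point lies in at most `n + 1` of its members. -/
def CovDimLE (X : Type*) [TopologicalSpace X] (n : ℕ) : Prop :=
  ∀ 𝒰 : Set (Set X), 𝒰.Finite → (∀ U ∈ 𝒰, IsOpen U) → ⋃₀ 𝒰 = univ →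
    ∃ 𝒱 : Set (Set X), 𝒱.Finite ∧ (∀ V ∈ 𝒱, IsOpen V) ∧ ⋃₀ 𝒱 = univ ∧
      (∀ V ∈ 𝒱, ∃ U ∈ 𝒰, V ⊆ U) ∧ ∀ x : X, {V ∈ 𝒱 | x ∈ V}.ncard ≤ n + 1

lemma quad_finite (α β γ : ℝ) (hα : α ≠ 0) : {t : ℝ | α * t ^ 2 + β * t + γ = 0}.Finite := by
  have hp : (Polynomial.C α * Polynomial.X ^ 2 + Polynomial.C β * Polynomial.X
      + Polynomial.C γ : Polynomial ℝ) ≠ 0 := by
    intro h
    have := congrArg (fun p => Polynomial.coeff p 2) h
    simp at this
    exact hα this
  refine (Polynomial.finite_setOfPred_isRoot hp).subset ?_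
  intro t ht
  simp only [mem_ofPred_eq, Polynomial.IsRoot.def, Polynomial.eval_add, Polynomial.eval_mul,
    Polynomial.eval_C, Polynomial.eval_pow, Polynomial.eval_X] at ht ⊢
  exact ht

lemma generic {ι : Type*} [Finite ι] (a : ι → ℂ) {r : ℝ} (hr : 0 < r) :
    ∃ c : ι → ℂ, (∀ i, ‖c i - a i‖ < r) ∧ (∀ i, c i ≠ 0) ∧
      ∀ i j, i ≠ j → (c i * conj (c j)).im ≠ 0 := by
  obtain ⟨n, ⟨e⟩⟩ := Finite.exists_equiv_fin ι
  let w : ι → ℂ := fun i => ⟨1, (e i : ℕ)⟩
  have hw : ∀ i j, i ≠ j → (w i * conj (w j)).im ≠ 0 := by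
    intro i j hij
    have h1 : (w i * conj (w j)).im = ((e i : ℕ) : ℝ) - ((e j : ℕ) : ℝ) := by
      simp [w, Complex.mul_im]
      ring
    rw [h1, sub_ne_zero]
    intro h
    apply hij
    apply e.injective
    apply Fin.ext
    exact_mod_cast h
  -- bad parameters
  have hbad1 : (⋃ i : ι, ⋃ j : ι, {t : ℝ | i ≠ j ∧
      ((a i + t * w i) * conj (a j + t * w j)).im = 0}).Finite := by
    refine Set.finite_iUnion fun i => Set.finite_iUnion fun j => ?_
    by_cases hij : i = j
    · simp [hij]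
    · refine (quad_finite ((w i * conj (w j)).im)
        ((a i * conj (w j)).im + (w i * conj (a j)).im) ((a i * conj (a j)).im)
        (hw i j hij)).subset ?_
      rintro t ⟨-, ht⟩
      simp only [mem_ofPred_eq]
      rw [← ht]
      simp only [Complex.mul_im, Complex.add_re, Complex.add_im, Complex.mul_re,
        Complex.ofReal_re, Complex.ofReal_im, Complex.conj_re, Complex.conj_im]
      ring
  have hbad2 : (⋃ i : ι, {t : ℝ | a i + t * w i = 0}).Finite := by
    refine Set.finite_iUnion fun i => ?_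
    refine (Set.finite_singleton (-(a i).re)).subset ?_
    intro t ht
    simp only [mem_ofPred_eq] at ht
    have := congrArg Complex.re ht
    simp [w] at this
    simp only [mem_singleton_iff]
    linarith
  -- a uniform bound for `w`
  obtain ⟨M, hM⟩ : ∃ M : ℝ, ∀ i, ‖w i‖ ≤ M := by
    obtain ⟨M, hM⟩ := (Set.finite_range (fun i => ‖w i‖)).bddAbove
    exact ⟨M, fun i => hM ⟨i, rfl⟩⟩
  have hM' : ∀ i, ‖w i‖ < |M| + 1 := fun i => by
    have := hM i
    have := le_abs_self M
    linarith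
  have hpos : 0 < r / (|M| + 1) := div_pos hr (by positivity)
  obtain ⟨t, ht, hnot⟩ := (Set.Ioo_infinite hpos).exists_notMem_finite (hbad1.union hbad2)
  refine ⟨fun i => a i + t * w i, fun i => ?_, fun i => ?_, fun i j hij => ?_⟩
  · have h1 : a i + t * w i - a i = t * w i := by ring
    rw [h1, norm_mul, Complex.norm_real, Real.norm_eq_abs, abs_of_pos ht.1]
    calc t * ‖w i‖ ≤ t * (|M| + 1) := mul_le_mul_of_nonneg_left (hM' i).le ht.1.le
      _ < r / (|M| + 1) * (|M| + 1) := mul_lt_mul_of_pos_right ht.2 (by positivity)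
      _ = r := by field_simp
  · intro h
    apply hnot
    right
    simp only [mem_iUnion]
    exact ⟨i, h⟩
  · intro h
    apply hnot
    left
    simp only [mem_iUnion]
    exact ⟨i, j, hij, h⟩

/-- In a compact Hausdorff space of covering dimension at most one, the nonvanishing functions are
dense in `C(X, ℂ)`. -/
theorem exists_nonvanishing {X : Type*} [TopologicalSpace X] [CompactSpace X] [T2Space X]
    (hX : CovDimLE X 1) (f : C(X, ℂ)) {ε : ℝ} (hε : 0 < ε) :
    ∃ g : C(X, ℂ), (∀ x, g x ≠ 0) ∧ ‖g - f‖ < ε := by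
  classical
  have hr : 0 < ε / 4 := by positivity
  let U : X → Set X := fun y => {x | ‖f x - f y‖ < ε / 4}
  have hUo : ∀ y, IsOpen (U y) := fun y =>
    isOpen_lt (by fun_prop) continuous_const
  obtain ⟨t, ht⟩ := isCompact_univ.elim_finite_subcover U hUo (by
    intro x _
    simp only [mem_iUnion]
    exact ⟨x, by simp [U, hr]⟩)
  obtain ⟨𝒱, hVf, hVo, hVc, hVr, hVn⟩ := hX (U '' (t : Set X)) (t.finite_toSet.image U)
    (by rintro _ ⟨y, -, rfl⟩; exact hUo y)
    (by
      rw [sUnion_image]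
      exact univ_subset_iff.1 (by simpa using ht))
  have hy : ∀ V : 𝒱, ∃ y : X, (V : Set X) ⊆ U y := by
    rintro ⟨V, hV⟩
    obtain ⟨_, ⟨y, -, rfl⟩, hVy⟩ := hVr V hV
    exact ⟨y, hVy⟩
  choose y hy using hy
  have : Finite 𝒱 := hVf
  have : Fintype 𝒱 := Fintype.ofFinite 𝒱
  obtain ⟨p, hp⟩ := PartitionOfUnity.exists_isSubordinate_of_locallyFinite (s := (univ : Set X))
    isClosed_univ (fun V : 𝒱 => (V : Set X)) (fun V => hVo V V.2)
    (locallyFinite_of_finite _) (by
      rw [← sUnion_eq_iUnion, hVc])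
  obtain ⟨c, hc1, hc2, hc3⟩ := generic (fun V : 𝒱 => f (y V)) hr
  have hmem : ∀ (V : 𝒱) (x : X), p V x ≠ 0 → x ∈ (V : Set X) := fun V x hx =>
    hp V (subset_tsupport _ hx)
  have hsum : ∀ x, ∑ V : 𝒱, p V x = 1 := by
    intro x
    have := p.sum_eq_one (mem_univ x)
    rwa [finsum_eq_sum_of_fintype] at this
  let g : C(X, ℂ) := ⟨fun x => ∑ V : 𝒱, ((p V x : ℝ) : ℂ) * c V, by fun_prop⟩
  refine ⟨g, fun x => ?_, ?_⟩
  · -- nonvanishing
    change (∑ V : 𝒱, ((p V x : ℝ) : ℂ) * c V) ≠ 0
    intro h0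
    obtain ⟨V0, hV0⟩ : ∃ V0 : 𝒱, p V0 x ≠ 0 := by
      by_contra hcon
      push Not at hcon
      have := hsum x
      simp [hcon] at this
    by_cases hone : ∀ V : 𝒱, V ≠ V0 → p V x = 0
    · rw [Finset.sum_eq_single V0 (fun V _ hV => by simp [hone V hV]) (by simp)] at h0
      rcases mul_eq_zero.1 h0 with h | h
      · exact hV0 (by exact_mod_cast h)
      · exact hc2 V0 h
    · push Not at hone
      obtain ⟨V1, hV1ne, hV1⟩ := hone
      have hother : ∀ V : 𝒱, V ≠ V0 → V ≠ V1 → p V x = 0 := by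
        intro V h0' h1'
        by_contra hne
        have hsub : ({(V : Set X), (V0 : Set X), (V1 : Set X)} : Set (Set X)) ⊆
            {W ∈ 𝒱 | x ∈ W} := by
          rintro W (rfl | rfl | rfl)
          · exact ⟨V.2, hmem V x hne⟩
          · exact ⟨V0.2, hmem V0 x hV0⟩
          · exact ⟨V1.2, hmem V1 x hV1⟩
        have hcard := Set.ncard_le_ncard hsub (hVf.subset (sep_subset _ _))
        have h3 : ({(V : Set X), (V0 : Set X), (V1 : Set X)} : Set (Set X)).ncard = 3 := by
          rw [Set.ncard_eq_three]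
          exact ⟨_, _, _, fun h => h0' (Subtype.ext h), fun h => h1' (Subtype.ext h),
            fun h => hV1ne (Subtype.ext h.symm), rfl⟩
        have := hVn x
        omega
      have him : (∑ V : 𝒱, ((p V x : ℝ) : ℂ) * c V * conj (c V1)).im = 0 := by
        rw [← Finset.sum_mul, h0]
        simp
      rw [Complex.im_sum, Finset.sum_eq_single V0] at him
      · rw [mul_assoc, Complex.im_ofReal_mul] at him
        exact hc3 V0 V1 hV1ne.symm ((mul_eq_zero.1 him).resolve_left hV0)
      · intro V _ hV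
        by_cases hVV1 : V = V1
        · subst hVV1
          rw [mul_assoc, Complex.mul_conj]
          simp
        · simp [hother V hV hVV1]
      · simp
  · rw [ContinuousMap.norm_lt_iff _ hε]
    intro x
    have h1 : (g - f) x = ∑ V : 𝒱, ((p V x : ℝ) : ℂ) * (c V - f x) := by
      simp only [ContinuousMap.sub_apply, mul_sub, Finset.sum_sub_distrib]
      rw [← Finset.sum_mul]
      have : (∑ V : 𝒱, ((p V x : ℝ) : ℂ)) = 1 := by
        exact_mod_cast congrArg (fun s : ℝ => (s : ℂ)) (hsum x)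
      rw [this, one_mul]
      rfl
    rw [h1]
    calc ‖∑ V : 𝒱, ((p V x : ℝ) : ℂ) * (c V - f x)‖
        ≤ ∑ V : 𝒱, ‖((p V x : ℝ) : ℂ) * (c V - f x)‖ := norm_sum_le _ _
      _ ≤ ∑ V : 𝒱, p V x * (ε / 2) := by
          refine Finset.sum_le_sum fun V _ => ?_
          rw [norm_mul, Complex.norm_real, Real.norm_eq_abs, abs_of_nonneg (p.nonneg V x)]
          by_cases hpx : p V x = 0
          · simp [hpx]
          · refine mul_le_mul_of_nonneg_left ?_ (p.nonneg V x)
            have hxV := hmem V x hpx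
            have h2 : ‖f x - f (y V)‖ < ε / 4 := hy V hxV
            calc ‖c V - f x‖ = ‖(c V - f (y V)) - (f x - f (y V))‖ := by congr 1; ring
              _ ≤ ‖c V - f (y V)‖ + ‖f x - f (y V)‖ := norm_sub_le _ _
              _ ≤ ε / 2 := by have := hc1 V; linarith
      _ = ε / 2 := by rw [← Finset.sum_mul, hsum, one_mul]
      _ < ε := by linarith

end Pool.Agent.Y284.OM
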