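import Pool.Agent.Y284.OM.Dense

/-!
If the nonvanishing functions are dense in `C(X, ℂ)` then multiplication is uniformly open.
-/

namespace Pool.Agent.Y284.OM

open Set Filter Topology

/-- Nonvanishing functions are dense in `C(X, ℂ)`. -/
def DenseNV (X : Type*) [TopologicalSpace X] [CompactSpace X] : Prop :=
  ∀ (f : C(X, ℂ)) (ε : ℝ), 0 < ε → ∃ g : C(X, ℂ), (∀ x, g x ≠ 0) ∧ ‖g - f‖ < ε

variable {X : Type*} [TopologicalSpace X] [CompactSpace X]

lemma extend_nonvanishing (hd : DenseNV X) (F : C(X, ℂ)) (A : Set X) (hA : IsClosed A)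
    (hF : ∀ x ∈ A, F x ≠ 0) :
    ∃ Q : C(X, ℂ), (∀ x, Q x ≠ 0) ∧ ∀ x ∈ A, Q x = F x := by
  obtain ⟨c, hc, hcA⟩ := hA.isCompact.exists_forall_le' (f := fun x => ‖F x‖)
    (by fun_prop) (a := 0) (fun x hx => norm_pos_iff.2 (hF x hx))
  obtain ⟨P, hP0, hP⟩ := hd F (c / 3) (by positivity)
  have hPx : ∀ x, ‖P x - F x‖ ≤ c / 3 := fun x =>
    (ContinuousMap.norm_coe_le_norm (P - F) x).trans hP.le
  let u : X → ℂ := fun x => F x / P x - 1
  have hu : Continuous u := by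
    have : Continuous fun x => F x / P x := F.continuous.div P.continuous hP0
    exact this.sub continuous_const
  let v : X → ℂ := fun x => u x / ((max 1 (2 * ‖u x‖) : ℝ) : ℂ)
  have hmax : ∀ x, (0 : ℝ) < max 1 (2 * ‖u x‖) := fun x => lt_max_of_lt_left one_pos
  have hv : Continuous v := by
    refine hu.div (by fun_prop) fun x => ?_
    exact_mod_cast (hmax x).ne'
  have hvn : ∀ x, ‖v x‖ ≤ 1 / 2 := by
    intro x
    simp only [v]
    rw [norm_div, Complex.norm_real, Real.norm_eq_abs, abs_of_pos (hmax x), div_le_iff₀ (hmax x)]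
    have := le_max_right (1 : ℝ) (2 * ‖u x‖)
    linarith
  refine ⟨⟨fun x => P x * (1 + v x), by fun_prop⟩, fun x => ?_, fun x hx => ?_⟩
  · simp only [ContinuousMap.coe_mk]
    refine mul_ne_zero (hP0 x) fun h => ?_
    have h1 : v x = -1 := by linear_combination h
    have h2 := hvn x
    rw [h1] at h2
    norm_num at h2
  · simp only [ContinuousMap.coe_mk]
    have h1 : ‖u x‖ ≤ 1 / 2 := by
      have h2 : u x = (F x - P x) / P x := by
        simp only [u]
        rw [sub_div, div_self (hP0 x)]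
      have h3 : 2 * c / 3 ≤ ‖P x‖ := by
        have h4 : ‖F x‖ ≤ ‖P x‖ + ‖P x - F x‖ := by
          calc ‖F x‖ = ‖P x - (P x - F x)‖ := by congr 1; ring
            _ ≤ _ := norm_sub_le _ _
        have h5 := hcA x hx
        have h6 := hPx x
        linarith
      rw [h2, norm_div, div_le_iff₀ (norm_pos_iff.2 (hP0 x))]
      rw [norm_sub_rev]
      have h6 := hPx x
      linarith
    have h2 : v x = u x := by
      simp only [v]
      rw [max_eq_left (by linarith)]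
      simp
    rw [h2]
    simp only [u]
    have := hP0 x
    field_simp
    ring

lemma key (hd : DenseNV X) (f g h : C(X, ℂ)) (hg : ∀ x, g x ≠ 0) (hh : ∀ x, h x ≠ 0)
    {ε : ℝ} (hε : 0 < ε) (hfg : ∀ x, ‖h x - f x * g x‖ ≤ ε ^ 2 / 256) :
    ∃ f' g' : C(X, ℂ), f' * g' = h ∧ (∀ x, ‖f' x - f x‖ ≤ 5 / 8 * ε) ∧
      (∀ x, ‖g' x - g x‖ ≤ 5 / 8 * ε) := by
  -- the interpolation parameter
  let σ : X → ℝ := fun x => max 0 (min 1 (2 - ‖f x‖ / (ε / 8)))
  have hσc : Continuous σ := by fun_prop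
  have hσ0 : ∀ x, 0 ≤ σ x := fun x => le_max_left _ _
  have hσ1 : ∀ x, σ x ≤ 1 := fun x => max_le zero_le_one (min_le_left _ _)
  have hσa : ∀ x, 2 * (ε / 8) ≤ ‖f x‖ → σ x = 0 := by
    intro x hx
    have : 2 ≤ ‖f x‖ / (ε / 8) := by
      rw [le_div_iff₀ (by positivity)]
      exact hx
    exact max_eq_left ((min_le_right _ _).trans (by linarith))
  have hσb : ∀ x, ‖f x‖ ≤ ε / 8 → σ x = 1 := by
    intro x hx
    have : ‖f x‖ / (ε / 8) ≤ 1 := by
      rw [div_le_iff₀ (by positivity)]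
      linarith
    simp only [σ]
    rw [min_eq_left (by linarith)]
    simp
  have hhg : Continuous fun x => h x / g x := h.continuous.div g.continuous hg
  let F : C(X, ℂ) := ⟨fun x => f x + (σ x : ℂ) * (h x / g x - f x), by fun_prop⟩
  have hFx : ∀ x, F x = f x + (σ x : ℂ) * (h x / g x - f x) := fun x => rfl
  let A : Set X := {x | 2 * (ε / 8) ≤ ‖f x‖} ∪ {x | 2 * (ε / 8) ≤ ‖g x‖}
  have hA : IsClosed A :=
    (isClosed_le continuous_const (by fun_prop)).union
      (isClosed_le continuous_const (by fun_prop))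
  -- the estimates on `A`
  have hAest : ∀ x ∈ A, F x ≠ 0 ∧ ‖F x - f x‖ ≤ ε / 64 ∧ ‖h x / F x - g x‖ ≤ ε / 16 := by
    intro x hx
    have hd0 := hfg x
    by_cases hfx : 2 * (ε / 8) ≤ ‖f x‖
    · have hF : F x = f x := by
        rw [hFx, hσa x hfx]; simp
      have hfpos : 0 < ‖f x‖ := lt_of_lt_of_le (by positivity) hfx
      have hf0 : f x ≠ 0 := norm_pos_iff.1 hfpos
      refine ⟨hF ▸ hf0, by rw [hF]; simp; positivity, ?_⟩
      rw [hF]
      have h1 : h x / f x - g x = (h x - f x * g x) / f x := by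
        field_simp
      rw [h1, norm_div, div_le_iff₀ hfpos]
      calc ‖h x - f x * g x‖ ≤ ε ^ 2 / 256 := hd0
        _ ≤ ε / 16 * (2 * (ε / 8)) := by nlinarith [sq_nonneg ε]
        _ ≤ ε / 16 * ‖f x‖ := mul_le_mul_of_nonneg_left hfx (by positivity)
    · have hgx : 2 * (ε / 8) ≤ ‖g x‖ := hx.resolve_left hfx
      have hgpos : 0 < ‖g x‖ := lt_of_lt_of_le (by positivity) hgx
      have h1 : ‖h x / g x - f x‖ ≤ ε / 64 := by
        have h2 : h x / g x - f x = (h x - f x * g x) / g x := by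
          have := hg x
          field_simp
        rw [h2, norm_div, div_le_iff₀ hgpos]
        calc ‖h x - f x * g x‖ ≤ ε ^ 2 / 256 := hd0
          _ ≤ ε / 64 * (2 * (ε / 8)) := by nlinarith [sq_nonneg ε]
          _ ≤ ε / 64 * ‖g x‖ := mul_le_mul_of_nonneg_left hgx (by positivity)
      have h2 : ‖F x - f x‖ ≤ ε / 64 := by
        rw [hFx, add_sub_cancel_left, norm_mul, Complex.norm_real, Real.norm_eq_abs,
          abs_of_nonneg (hσ0 x)]
        calc σ x * ‖h x / g x - f x‖ ≤ 1 * ‖h x / g x - f x‖ :=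
              mul_le_mul_of_nonneg_right (hσ1 x) (norm_nonneg _)
          _ ≤ ε / 64 := by linarith
      by_cases hfs : ‖f x‖ ≤ ε / 8
      · have hF : F x = h x / g x := by
          rw [hFx, hσb x hfs]; simp
        refine ⟨by rw [hF]; exact div_ne_zero (hh x) (hg x), h2, ?_⟩
        rw [hF]
        have h3 : h x / (h x / g x) = g x := by
          have := hh x
          have := hg x
          field_simp
        rw [h3]
        simp
        positivity
      · push Not at hfs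
        have h3 : ε / 16 ≤ ‖F x‖ := by
          have h4 : ‖f x‖ ≤ ‖F x‖ + ‖F x - f x‖ := by
            calc ‖f x‖ = ‖F x - (F x - f x)‖ := by congr 1; ring
              _ ≤ _ := norm_sub_le _ _
          linarith
        have h3pos : 0 < ‖F x‖ := lt_of_lt_of_le (by positivity) h3
        have h30 : F x ≠ 0 := norm_pos_iff.1 h3pos
        refine ⟨h30, h2, ?_⟩
        have h5 : h x / F x - g x = ((1 - σ x : ℝ) : ℂ) * (h x - f x * g x) / F x := by
          rw [eq_div_iff h30, sub_mul, div_mul_cancel₀ _ h30, hFx]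
          have := hg x
          push_cast
          field_simp
          ring
        rw [h5, norm_div, norm_mul, Complex.norm_real, Real.norm_eq_abs,
          abs_of_nonneg (sub_nonneg.2 (hσ1 x)), div_le_iff₀ h3pos]
        calc (1 - σ x) * ‖h x - f x * g x‖ ≤ 1 * ‖h x - f x * g x‖ :=
              mul_le_mul_of_nonneg_right (by linarith [hσ0 x]) (norm_nonneg _)
          _ ≤ ε ^ 2 / 256 := by linarith
          _ ≤ ε / 16 * (ε / 16) := by nlinarith [sq_nonneg ε]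
          _ ≤ ε / 16 * ‖F x‖ := mul_le_mul_of_nonneg_left h3 (by positivity)
  obtain ⟨Q, hQ0, hQA⟩ := extend_nonvanishing hd F A hA fun x hx => (hAest x hx).1
  -- the modulus
  let m : X → ℝ := fun x => max (‖h x‖ / (‖g x‖ + ε / 8)) (min ‖Q x‖ (‖f x‖ + ε / 8))
  have hden : ∀ x, 0 < ‖g x‖ + ε / 8 := fun x => by positivity
  have hmc : Continuous m := by
    have : Continuous fun x => ‖h x‖ / (‖g x‖ + ε / 8) :=
      h.continuous.norm.div (by fun_prop) fun x => (hden x).ne'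
    fun_prop
  have hmlo : ∀ x, ‖h x‖ / (‖g x‖ + ε / 8) ≤ m x := fun x => le_max_left _ _
  have hmpos : ∀ x, 0 < m x := fun x =>
    lt_of_lt_of_le (div_pos (norm_pos_iff.2 (hh x)) (hden x)) (hmlo x)
  have hmup : ∀ x, m x ≤ ‖f x‖ + ε / 8 := by
    intro x
    refine max_le ?_ (min_le_right _ _)
    rw [div_le_iff₀ (hden x)]
    have h1 : ‖h x‖ ≤ ‖f x‖ * ‖g x‖ + ε ^ 2 / 256 := by
      calc ‖h x‖ = ‖f x * g x + (h x - f x * g x)‖ := by congr 1; ring
        _ ≤ ‖f x * g x‖ + ‖h x - f x * g x‖ := norm_add_le _ _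
        _ ≤ _ := by rw [norm_mul]; linarith [hfg x]
    nlinarith [norm_nonneg (f x), norm_nonneg (g x), mul_nonneg (norm_nonneg (f x)) hε.le,
      mul_nonneg (norm_nonneg (g x)) hε.le, sq_nonneg ε]
  have hmA : ∀ x ∈ A, m x = ‖Q x‖ := by
    intro x hx
    obtain ⟨h0, h1, h2⟩ := hAest x hx
    have hup : ‖Q x‖ ≤ ‖f x‖ + ε / 8 := by
      rw [hQA x hx]
      calc ‖F x‖ = ‖f x + (F x - f x)‖ := by congr 1; ring
        _ ≤ ‖f x‖ + ‖F x - f x‖ := norm_add_le _ _
        _ ≤ _ := by linarith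
    have hlo : ‖h x‖ / (‖g x‖ + ε / 8) ≤ ‖Q x‖ := by
      rw [hQA x hx, div_le_iff₀ (hden x)]
      have h3 : ‖h x / F x‖ ≤ ‖g x‖ + ε / 8 := by
        calc ‖h x / F x‖ = ‖g x + (h x / F x - g x)‖ := by congr 1; ring
          _ ≤ ‖g x‖ + ‖h x / F x - g x‖ := norm_add_le _ _
          _ ≤ _ := by linarith
      rw [norm_div, div_le_iff₀ (norm_pos_iff.2 h0)] at h3
      linarith
    simp only [m]
    rw [min_eq_left hup, max_eq_right hlo]
  have hQn : ∀ x, ‖Q x‖ ≠ 0 := fun x => norm_ne_zero_iff.2 (hQ0 x)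
  have hQc : ∀ x, ((‖Q x‖ : ℝ) : ℂ) ≠ 0 := fun x => by exact_mod_cast hQn x
  have hf'c : Continuous fun x => Q x * ((m x / ‖Q x‖ : ℝ) : ℂ) := by
    have : Continuous fun x => m x / ‖Q x‖ := hmc.div (by fun_prop) hQn
    fun_prop
  let f' : C(X, ℂ) := ⟨fun x => Q x * ((m x / ‖Q x‖ : ℝ) : ℂ), hf'c⟩
  have hf'x : ∀ x, f' x = Q x * ((m x / ‖Q x‖ : ℝ) : ℂ) := fun x => rfl
  have hf'n : ∀ x, ‖f' x‖ = m x := by
    intro x
    rw [hf'x, norm_mul, Complex.norm_real, Real.norm_eq_abs,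
      abs_of_nonneg (div_nonneg (hmpos x).le (norm_nonneg _))]
    field_simp [hQn x]
  have hf'0 : ∀ x, f' x ≠ 0 := fun x => norm_pos_iff.1 (by rw [hf'n]; exact hmpos x)
  have hf'A : ∀ x ∈ A, f' x = F x := by
    intro x hx
    rw [hf'x, hmA x hx, div_self (hQn x), Complex.ofReal_one, mul_one, hQA x hx]
  let g' : C(X, ℂ) := ⟨fun x => h x / f' x, h.continuous.div f'.continuous hf'0⟩
  have hg'x : ∀ x, g' x = h x / f' x := fun x => rfl
  refine ⟨f', g', ?_, fun x => ?_, fun x => ?_⟩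
  · ext x
    rw [ContinuousMap.mul_apply, hg'x, mul_div_cancel₀ _ (hf'0 x)]
  · by_cases hx : x ∈ A
    · rw [hf'A x hx]
      linarith [(hAest x hx).2.1]
    · have hx' : ‖f x‖ < 2 * (ε / 8) := by
        by_contra hcon
        exact hx (Or.inl (not_lt.1 hcon))
      calc ‖f' x - f x‖ ≤ ‖f' x‖ + ‖f x‖ := norm_sub_le _ _
        _ ≤ (‖f x‖ + ε / 8) + ‖f x‖ := by rw [hf'n]; linarith [hmup x]
        _ ≤ 5 / 8 * ε := by linarith
  · by_cases hx : x ∈ A
    · rw [hg'x, hf'A x hx]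
      linarith [(hAest x hx).2.2]
    · have hx' : ‖g x‖ < 2 * (ε / 8) := by
        by_contra hcon
        exact hx (Or.inr (not_lt.1 hcon))
      have h1 : ‖g' x‖ ≤ ‖g x‖ + ε / 8 := by
        rw [hg'x, norm_div, hf'n, div_le_iff₀ (hmpos x)]
        have := hmlo x
        rw [div_le_iff₀ (hden x)] at this
        linarith
      calc ‖g' x - g x‖ ≤ ‖g' x‖ + ‖g x‖ := norm_sub_le _ _
        _ ≤ (‖g x‖ + ε / 8) + ‖g x‖ := by linarith
        _ ≤ 5 / 8 * ε := by linarith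

/-- Uniform almost openness. -/
lemma almost (hd : DenseNV X) (f g h : C(X, ℂ)) {ε θ : ℝ} (hε : 0 < ε) (hθ : 0 < θ)
    (hfg : ‖h - f * g‖ < ε ^ 2 / 256) :
    ∃ f' g' : C(X, ℂ), ‖f' - f‖ < ε ∧ ‖g' - g‖ < ε ∧ ‖h - f' * g'‖ < θ := by
  set s := ε ^ 2 / 256 - ‖h - f * g‖ with hs
  have hs0 : 0 < s := sub_pos.2 hfg
  set κ := min (min (ε / 4) θ) (s / (2 + ‖f‖)) with hκ
  have hκ0 : 0 < κ := by
    refine lt_min (lt_min (by positivity) hθ) (div_pos hs0 (by positivity))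
  have hκ1 : κ ≤ ε / 4 := (min_le_left _ _).trans (min_le_left _ _)
  have hκ2 : κ ≤ θ := (min_le_left _ _).trans (min_le_right _ _)
  have hκ3 : κ * (2 + ‖f‖) ≤ s := by
    have h1 : κ ≤ s / (2 + ‖f‖) := min_le_right _ _
    rwa [le_div_iff₀ (by positivity)] at h1
  obtain ⟨g1, hg10, hg1⟩ := hd g κ hκ0
  obtain ⟨h1, hh10, hh1⟩ := hd h κ hκ0
  obtain ⟨f', g', hfg', hf', hg'⟩ := key hd f g1 h1 hg10 hh10 hε (by
    intro x
    have e1 : h1 x - f x * g1 x = (h1 - h) x + (h - f * g) x - f x * (g1 - g) x := by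
      simp only [ContinuousMap.sub_apply, ContinuousMap.mul_apply]
      ring
    have e2 : ‖(h1 - h) x‖ ≤ κ := (ContinuousMap.norm_coe_le_norm _ x).trans hh1.le
    have e3 : ‖(h - f * g) x‖ ≤ ‖h - f * g‖ := ContinuousMap.norm_coe_le_norm _ x
    have e4 : ‖(g1 - g) x‖ ≤ κ := (ContinuousMap.norm_coe_le_norm _ x).trans hg1.le
    have e5 : ‖f x‖ ≤ ‖f‖ := ContinuousMap.norm_coe_le_norm _ x
    have e6 : ‖f x * (g1 - g) x‖ ≤ ‖f‖ * κ := by
      rw [norm_mul]
      exact mul_le_mul e5 e4 (norm_nonneg _) (norm_nonneg _)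
    calc ‖h1 x - f x * g1 x‖ ≤ ‖(h1 - h) x + (h - f * g) x‖ + ‖f x * (g1 - g) x‖ := by
          rw [e1]; exact norm_sub_le _ _
      _ ≤ ‖(h1 - h) x‖ + ‖(h - f * g) x‖ + ‖f x * (g1 - g) x‖ := by
          gcongr
          exact norm_add_le _ _
      _ ≤ ε ^ 2 / 256 := by
          nlinarith [norm_nonneg f])
  refine ⟨f', g', ?_, ?_, ?_⟩
  · rw [ContinuousMap.norm_lt_iff _ hε]
    intro x
    have := hf' x
    rw [ContinuousMap.sub_apply]
    linarith
  · rw [ContinuousMap.norm_lt_iff _ hε]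
    intro x
    have e1 := hg' x
    have e4 : ‖(g1 - g) x‖ ≤ κ := (ContinuousMap.norm_coe_le_norm _ x).trans hg1.le
    calc ‖(g' - g) x‖ = ‖(g' x - g1 x) + (g1 - g) x‖ := by
          congr 1
          simp only [ContinuousMap.sub_apply]
          ring
      _ ≤ ‖g' x - g1 x‖ + ‖(g1 - g) x‖ := norm_add_le _ _
      _ < ε := by linarith
  · rw [hfg', norm_sub_rev]
    exact hh1.trans_le hκ2

/-- Uniform openness of multiplication in `C(X, ℂ)`, from density of nonvanishing functions. -/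
theorem factor (hd : DenseNV X) (f g h : C(X, ℂ)) {ε : ℝ} (hε : 0 < ε)
    (hfg : ‖h - f * g‖ < ε ^ 2 / 4096) :
    ∃ f' g' : C(X, ℂ), ‖f' - f‖ < ε ∧ ‖g' - g‖ < ε ∧ f' * g' = h := by
  let C : ℝ := ε / 2
  let e : ℕ → ℝ := fun n => C / 2 / 2 ^ n
  have he : ∀ n, 0 < e n := fun n => by positivity
  have hstep : ∀ (n : ℕ) (p : C(X, ℂ) × C(X, ℂ)), ∃ q : C(X, ℂ) × C(X, ℂ),
      ‖h - p.1 * p.2‖ < e n ^ 2 / 256 →
        ‖q.1 - p.1‖ < e n ∧ ‖q.2 - p.2‖ < e n ∧ ‖h - q.1 * q.2‖ < e (n + 1) ^ 2 / 256 := by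
    intro n p
    by_cases hp : ‖h - p.1 * p.2‖ < e n ^ 2 / 256
    · obtain ⟨f', g', h1, h2, h3⟩ := almost hd p.1 p.2 h (he n)
        (by have := he (n + 1); positivity : 0 < e (n + 1) ^ 2 / 256) hp
      exact ⟨(f', g'), fun _ => ⟨h1, h2, h3⟩⟩
    · exact ⟨p, fun hp' => absurd hp' hp⟩
  choose Φ hΦ using hstep
  let u : ℕ → C(X, ℂ) × C(X, ℂ) := fun n => Nat.rec (f, g) (fun k p => Φ k p) n
  have hu0 : u 0 = (f, g) := rfl
  have hus : ∀ n, u (n + 1) = Φ n (u n) := fun n => rfl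
  have hinv : ∀ n, ‖h - (u n).1 * (u n).2‖ < e n ^ 2 / 256 := by
    intro n
    induction n with
    | zero =>
      rw [hu0]
      refine hfg.trans_le (le_of_eq ?_)
      simp only [e, C]
      ring
    | succ k ih =>
      rw [hus]
      exact (hΦ k (u k) ih).2.2
  have hd1 : ∀ n, dist ((u n).1) ((u (n + 1)).1) ≤ C / 2 / 2 ^ n := by
    intro n
    rw [dist_comm, dist_eq_norm, hus]
    exact (hΦ n (u n) (hinv n)).1.le
  have hd2 : ∀ n, dist ((u n).2) ((u (n + 1)).2) ≤ C / 2 / 2 ^ n := by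
    intro n
    rw [dist_comm, dist_eq_norm, hus]
    exact (hΦ n (u n) (hinv n)).2.1.le
  obtain ⟨f', hf'⟩ := cauchySeq_tendsto_of_complete (cauchySeq_of_le_geometric_two hd1)
  obtain ⟨g', hg'⟩ := cauchySeq_tendsto_of_complete (cauchySeq_of_le_geometric_two hd2)
  have hCε : C < ε := by simp only [C]; linarith
  refine ⟨f', g', ?_, ?_, ?_⟩
  · have := dist_le_of_le_geometric_two_of_tendsto₀ hd1 hf'
    rw [hu0, dist_comm, dist_eq_norm] at this
    exact this.trans_lt hCε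
  · have := dist_le_of_le_geometric_two_of_tendsto₀ hd2 hg'
    rw [hu0, dist_comm, dist_eq_norm] at this
    exact this.trans_lt hCε
  · have h1 : Tendsto (fun n => (u n).1 * (u n).2) atTop (𝓝 (f' * g')) := hf'.mul hg'
    have h2 : Tendsto (fun n => ‖h - (u n).1 * (u n).2‖) atTop (𝓝 ‖h - f' * g'‖) :=
      (tendsto_const_nhds.sub h1).norm
    have h3 : Tendsto (fun n => e n ^ 2 / 256) atTop (𝓝 0) := by
      have h4 : Tendsto e atTop (𝓝 0) := by
        have : Tendsto (fun n : ℕ => (C / 2) * ((1 : ℝ) / 2) ^ n) atTop (𝓝 ((C / 2) * 0)) :=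
          (tendsto_pow_atTop_nhds_zero_of_lt_one (by norm_num) (by norm_num)).const_mul _
        rw [mul_zero] at this
        refine this.congr fun n => ?_
        simp only [e]
        rw [div_pow, one_pow]
        ring
      have := (h4.pow 2).div_const 256
      simpa using this
    have h5 : ‖h - f' * g'‖ ≤ 0 := le_of_tendsto_of_tendsto' h2 h3 fun n => (hinv n).le
    have h6 : h - f' * g' = 0 := norm_le_zero_iff.1 h5
    exact (sub_eq_zero.1 h6).symm

end Pool.Agent.Y284.OM
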